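import Mathlib
import Pool.Agent.W297.WS.Defs

/-!
The base case: the dual associahedron is a sphere up to homotopy.
-/

set_option autoImplicit false
open Classical

namespace Pool.Agent.W965.WS

open Pool.Agent.W297.WS

/-- crossing of chords -/
def cr (p q : ℕ × ℕ) : Prop :=
  (p.1 < q.1 ∧ q.1 < p.2 ∧ p.2 < q.2) ∨ (q.1 < p.1 ∧ p.1 < q.2 ∧ q.2 < p.2)

/-- the relation -/
def ad : (ℕ × ℕ) ⊕ ℕ → (ℕ × ℕ) ⊕ ℕ → Prop
  | Sum.inl p, Sum.inl q => ¬ cr p q
  | Sum.inl p, Sum.inr j => ¬ (p.1 = 0 ∧ p.2 = j)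
  | Sum.inr j, Sum.inl p => ¬ (p.1 = 0 ∧ p.2 = j)
  | Sum.inr _, Sum.inr _ => True

lemma ad_symm : ∀ a b, ad a b → ad b a := by
  rintro (p | i) (q | j) h
  · intro h2
    exact h (by unfold cr at h2 ⊢; omega)
  · exact h
  · exact h
  · trivial

lemma ad_refl : ∀ a, ad a a := by
  rintro (p | i)
  · intro h
    unfold cr at h
    omega
  · trivial

/-- the vertices at stage `N` -/
noncomputable def WN (n N : ℕ) : Finset ((ℕ × ℕ) ⊕ ℕ) :=
  ((Finset.range n ×ˢ Finset.range n).filter (fun p =>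
    (p.1 + 2 ≤ p.2 ∧ p.2 < N ∧ ¬ (p.1 = 0 ∧ p.2 = N - 1)) ∨
      (p.1 = 0 ∧ N - 1 ≤ p.2 ∧ p.2 ≤ n - 2))).disjSum
    ((Finset.range n).filter (fun j => N - 1 ≤ j ∧ j ≤ n - 2))

/-- the new chords -/
noncomputable def SN (N : ℕ) : Finset ((ℕ × ℕ) ⊕ ℕ) :=
  (Finset.Icc 1 (N - 2)).image (fun j => Sum.inl (j, N))

lemma inl_mem_WN {n N : ℕ} (hn : 4 ≤ n) (hN : N ≤ n) (a b : ℕ) :
    (Sum.inl (a, b) : (ℕ × ℕ) ⊕ ℕ) ∈ WN n N ↔
      (a + 2 ≤ b ∧ b < N ∧ ¬ (a = 0 ∧ b = N - 1)) ∨ (a = 0 ∧ N - 1 ≤ b ∧ b ≤ n - 2) := by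
  unfold WN
  rw [Finset.inl_mem_disjSum, Finset.mem_filter, Finset.mem_product, Finset.mem_range,
    Finset.mem_range]
  constructor
  · rintro ⟨-, h⟩; exact h
  · intro h
    refine ⟨⟨?_, ?_⟩, h⟩ <;> simp only <;> omega

lemma inr_mem_WN {n N : ℕ} (hn : 4 ≤ n) (j : ℕ) :
    (Sum.inr j : (ℕ × ℕ) ⊕ ℕ) ∈ WN n N ↔ N - 1 ≤ j ∧ j ≤ n - 2 := by
  unfold WN
  rw [Finset.inr_mem_disjSum, Finset.mem_filter, Finset.mem_range]
  constructor
  · rintro ⟨-, h⟩; exact h
  · intro h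
    refine ⟨?_, h⟩; omega

lemma inl_mem_SN {N : ℕ} (a b : ℕ) :
    (Sum.inl (a, b) : (ℕ × ℕ) ⊕ ℕ) ∈ SN N ↔ b = N ∧ 1 ≤ a ∧ a ≤ N - 2 := by
  unfold SN
  rw [Finset.mem_image]
  constructor
  · rintro ⟨j, hj, h⟩
    rw [Finset.mem_Icc] at hj
    have h2 : (j, N) = (a, b) := Sum.inl_injective h
    rw [Prod.mk.injEq] at h2
    omega
  · rintro ⟨h1, h2, h3⟩
    exact ⟨a, Finset.mem_Icc.2 ⟨h2, h3⟩, by rw [h1]⟩

lemma inr_mem_SN {N : ℕ} (j : ℕ) : (Sum.inr j : (ℕ × ℕ) ⊕ ℕ) ∉ SN N := by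
  unfold SN
  rw [Finset.mem_image]
  rintro ⟨i, -, h⟩
  exact Sum.inl_ne_inr h

lemma union_eq {n N : ℕ} (hn : 4 ≤ n) (hN3 : 3 ≤ N) (hN : N < n) :
    WN n N ∪ SN N = WN n (N + 1) ∪ {Sum.inr (N - 1)} := by
  ext x
  rw [Finset.mem_union, Finset.mem_union, Finset.mem_singleton]
  rcases x with ⟨a, b⟩ | j
  · rw [inl_mem_WN hn hN.le, inl_mem_WN hn (by omega : N + 1 ≤ n), inl_mem_SN]
    simp only [reduceCtorEq, or_false]
    omega
  · rw [inr_mem_WN hn, inr_mem_WN hn]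
    have h1 : (Sum.inr j : (ℕ × ℕ) ⊕ ℕ) = Sum.inr (N - 1) ↔ j = N - 1 :=
      ⟨fun h => Sum.inr_injective h, fun h => by rw [h]⟩
    rw [h1]
    have h2 := inr_mem_SN (N := N) j
    constructor
    · rintro (h | h)
      · omega
      · exact absurd h h2
    · intro h
      left
      omega

lemma remc (hM : TRemCover) (V : Type) (adj : V → V → Prop) (hs : ∀ a b, adj a b → adj b a)
    (hr : ∀ a, adj a a) (W Q B : Finset V) (hB : ∀ x, x ∈ B ↔ x ∈ W ∨ x ∈ Q) (F : V → Finset V)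
    (h : ∀ T ∈ Q, F T ⊆ W ∧ (∀ a ∈ F T, adj T a) ∧ (∀ a ∈ F T, ∀ b ∈ F T, adj a b) ∧
        ∀ ρ ⊆ B, (∀ a ∈ ρ, ∀ b ∈ ρ, adj a b) → (∀ a ∈ ρ, adj T a) →
          ∃ v ∈ F T, ∀ a ∈ ρ, adj v a) :
    Nonempty (ContinuousMap.HomotopyEquiv (Geo adj W) (Geo adj B)) := by
  classical
  have h1 : B = W ∪ Q := by
    ext x
    rw [hB, Finset.mem_union]
  have h2 := hM V adj hs hr W Q F (fun T hT => by
    obtain ⟨a, b, c, d⟩ := h T hT
    refine ⟨a, b, c, fun ρ hρ => d ρ ?_⟩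
    intro x hx
    rw [hB]
    exact Finset.mem_union.1 (hρ hx))
  rw [h1]
  exact h2

lemma relab (hR : TRelabel) (V V' : Type) (adj : V → V → Prop) (adj' : V' → V' → Prop)
    (W : Finset V) (B : Finset V') (f : V → V') (hB : ∀ y, y ∈ B ↔ ∃ x ∈ W, f x = y)
    (h1 : Set.InjOn f (W : Set V)) (h2 : ∀ a ∈ W, ∀ b ∈ W, (adj' (f a) (f b) ↔ adj a b)) :
    Nonempty (Geo adj W ≃ₜ Geo adj' B) := by
  classical
  have h3 : B = W.image f := by
    ext y
    rw [hB, Finset.mem_image]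
  have h4 := hR V V' adj adj' W f h1 h2
  rw [h3]
  exact h4

lemma step (hM : TRemCover) {n N : ℕ} (hn : 4 ≤ n) (hN3 : 3 ≤ N) (hN : N < n) :
    Nonempty (ContinuousMap.HomotopyEquiv (Geo ad (WN n (N + 1))) (Geo ad (WN n N))) := by
  -- first removal
  have h1 : Nonempty (ContinuousMap.HomotopyEquiv (Geo ad (WN n N)) (Geo ad (WN n N ∪ SN N))) := by
    apply remc hM _ ad ad_symm ad_refl (WN n N) (SN N) _ (fun x => Finset.mem_union)
      (fun _ => {Sum.inr (N - 1)})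
    intro T hT
    rcases T with ⟨a, b⟩ | j
    · rw [inl_mem_SN] at hT
      refine ⟨?_, ?_, ?_, ?_⟩
      · intro x hx
        rw [Finset.mem_singleton] at hx
        rw [hx, inr_mem_WN hn]
        omega
      · intro x hx
        rw [Finset.mem_singleton] at hx
        rw [hx]
        intro h
        simp only at h
        omega
      · intro x hx y hy
        rw [Finset.mem_singleton] at hx hy
        rw [hx, hy]
        trivial
      · intro ρ _ _ hadj
        refine ⟨Sum.inr (N - 1), Finset.mem_singleton_self _, ?_⟩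
        intro x hx
        have hTx := hadj x hx
        rcases x with ⟨c, d⟩ | i
        · intro h
          simp only at h
          apply hTx
          unfold cr
          simp only
          omega
        · trivial
    · exact absurd hT (inr_mem_SN j)
  -- second removal
  have h2 : Nonempty (ContinuousMap.HomotopyEquiv (Geo ad (WN n (N + 1)))
      (Geo ad (WN n (N + 1) ∪ {Sum.inr (N - 1)}))) := by
    apply remc hM _ ad ad_symm ad_refl (WN n (N + 1)) {Sum.inr (N - 1)} _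
      (fun x => Finset.mem_union) (fun _ => SN N)
    intro T hT
    rw [Finset.mem_singleton] at hT
    rw [hT]
    refine ⟨?_, ?_, ?_, ?_⟩
    · intro x hx
      rcases x with ⟨a, b⟩ | j
      · rw [inl_mem_SN] at hx
        rw [inl_mem_WN hn (by omega : N + 1 ≤ n)]
        omega
      · exact absurd hx (inr_mem_SN j)
    · intro x hx
      rcases x with ⟨a, b⟩ | j
      · rw [inl_mem_SN] at hx
        intro h
        simp only at h
        omega
      · exact absurd hx (inr_mem_SN j)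
    · intro x hx y hy
      rcases x with ⟨a, b⟩ | j
      · rcases y with ⟨c, d⟩ | k
        · rw [inl_mem_SN] at hx hy
          intro h
          unfold cr at h
          simp only at h
          omega
        · exact absurd hy (inr_mem_SN k)
      · exact absurd hx (inr_mem_SN j)
    · intro ρ hρ hcl hadj
      have hno : (Sum.inl (0, N - 1) : (ℕ × ℕ) ⊕ ℕ) ∉ ρ := by
        intro h
        exact hadj _ h ⟨rfl, rfl⟩
      -- the largest chord at `0`
      have hb0 : ∃ b0, 1 ≤ b0 ∧ b0 ≤ N - 2 ∧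
          (2 ≤ b0 → (Sum.inl (0, b0) : (ℕ × ℕ) ⊕ ℕ) ∈ ρ) ∧
          ∀ b, b0 < b → b ≤ N - 2 → (Sum.inl (0, b) : (ℕ × ℕ) ⊕ ℕ) ∉ ρ := by
        set Z := (Finset.Icc 2 (N - 2)).filter
          (fun b => (Sum.inl (0, b) : (ℕ × ℕ) ⊕ ℕ) ∈ ρ) with hZ
        by_cases hne : Z.Nonempty
        · have hZm : ∀ b, b ∈ Z ↔ (2 ≤ b ∧ b ≤ N - 2) ∧ (Sum.inl (0, b) : (ℕ × ℕ) ⊕ ℕ) ∈ ρ := by
            intro b
            rw [hZ, Finset.mem_filter, Finset.mem_Icc]
          have hmem := (hZm _).1 (Z.max'_mem hne)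
          refine ⟨Z.max' hne, by omega, hmem.1.2, fun _ => hmem.2, ?_⟩
          intro b hb hbN hbρ
          have : b ∈ Z := by
            rw [hZ, Finset.mem_filter, Finset.mem_Icc]
            exact ⟨⟨by omega, hbN⟩, hbρ⟩
          have := Z.le_max' b this
          omega
        · refine ⟨1, le_refl _, by omega, by omega, ?_⟩
          intro b hb hbN hbρ
          apply hne
          refine ⟨b, ?_⟩
          rw [hZ, Finset.mem_filter, Finset.mem_Icc]
          exact ⟨⟨by omega, hbN⟩, hbρ⟩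
      obtain ⟨b0, hb1, hb2, hb3, hb4⟩ := hb0
      refine ⟨Sum.inl (b0, N), (inl_mem_SN _ _).2 ⟨rfl, hb1, hb2⟩, ?_⟩
      intro x hx
      have hxW := hρ hx
      rcases x with ⟨a, b⟩ | j
      · rw [Finset.mem_union, Finset.mem_singleton, inl_mem_WN hn (by omega : N + 1 ≤ n)] at hxW
        simp only [reduceCtorEq, or_false] at hxW
        intro hc
        unfold cr at hc
        simp only at hc
        -- `a < b0 < b < N`
        have hc2 : a < b0 ∧ b0 < b ∧ b < N := by omega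
        rcases Nat.eq_zero_or_pos a with ha | ha
        · rw [ha] at hx
          rcases Nat.lt_or_ge b (N - 1) with h | h
          · exact hb4 b hc2.2.1 (by omega) hx
          · have : b = N - 1 := by omega
            rw [this] at hx
            exact hno hx
        · have h3 := hb3 (by omega)
          have h4 := hcl _ h3 _ hx
          apply h4
          left
          exact ⟨ha, hc2.1, hc2.2.1⟩
      · intro h
        simp only at h
        omega
  rw [union_eq hn hN3 hN] at h1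
  exact ⟨h2.some.trans h1.some.symm⟩

lemma chain (hM : TRemCover) {n : ℕ} (hn : 4 ≤ n) (k : ℕ) (hk : 3 + k ≤ n) :
    Nonempty (ContinuousMap.HomotopyEquiv (Geo ad (WN n (3 + k))) (Geo ad (WN n 3))) := by
  induction k with
  | zero => exact ⟨ContinuousMap.HomotopyEquiv.refl _⟩
  | succ k ih =>
    exact ⟨(step hM hn (by omega) (by omega : 3 + k < n)).some.trans (ih (by omega)).some⟩

/-! ### the last stage -/

/-- relabelling -/
def fx : (ℕ × ℕ) ⊕ ℕ → Finset ℕ
  | Sum.inl p => {p.1, p.2}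
  | Sum.inr _ => ∅

lemma altC_pair {n a b : ℕ} (hab : a < b) (hbn : b < n) :
    AltC n {a, b} ↔ a + 2 ≤ b ∧ ¬ (a = 0 ∧ b = n - 1) := by
  constructor
  · rintro ⟨x, y, z, w, h1, h2, h3, h4, h⟩
    simp only [Finset.mem_insert, Finset.mem_singleton] at h
    omega
  · rintro ⟨h1, h2⟩
    rcases Nat.eq_zero_or_pos a with ha | ha
    · refine ⟨a, a + 1, b, b + 1, by omega, by omega, by omega, by omega, Or.inl ?_⟩
      simp only [Finset.mem_insert, Finset.mem_singleton]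
      refine ⟨by simp, by omega, by simp, by omega⟩
    · refine ⟨0, a, a + 1, b, ha, by omega, by omega, hbn, Or.inr ?_⟩
      simp only [Finset.mem_insert, Finset.mem_singleton]
      refine ⟨by omega, by simp, by omega, by simp⟩

lemma cs_pair {a b c d : ℕ} (hab : a < b) (hcd : c < d) :
    CS {a, b} {c, d} ↔ ¬ cr (a, b) (c, d) := by
  unfold CS
  rw [not_iff_not]
  unfold Alt cr
  simp only [Finset.mem_sdiff, Finset.mem_insert, Finset.mem_singleton]
  constructor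
  · rintro ⟨x, y, z, w, h1, h2, h3, h⟩
    omega
  · rintro (h | h)
    · exact ⟨a, c, b, d, by omega, by omega, by omega, Or.inl (by omega)⟩
    · exact ⟨c, a, d, b, by omega, by omega, by omega, Or.inr (by omega)⟩

lemma pair_inj {a b c d : ℕ} (hab : a < b) (hcd : c < d)
    (h : ({a, b} : Finset ℕ) = {c, d}) : a = c ∧ b = d := by
  have h1 : a ∈ ({c, d} : Finset ℕ) := by rw [← h]; simp
  have h2 : b ∈ ({c, d} : Finset ℕ) := by rw [← h]; simp
  have h3 : c ∈ ({a, b} : Finset ℕ) := by rw [h]; simp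
  have h4 : d ∈ ({a, b} : Finset ℕ) := by rw [h]; simp
  simp only [Finset.mem_insert, Finset.mem_singleton] at h1 h2 h3 h4
  omega

lemma last_lt {n : ℕ} (hn : 4 ≤ n) {x : (ℕ × ℕ) ⊕ ℕ} (hx : x ∈ WN n n) :
    ∃ a b, x = Sum.inl (a, b) ∧ a + 2 ≤ b ∧ b < n ∧ ¬ (a = 0 ∧ b = n - 1) := by
  rcases x with ⟨a, b⟩ | j
  · rw [inl_mem_WN hn (le_refl n)] at hx
    exact ⟨a, b, rfl, by omega⟩
  · rw [inr_mem_WN hn] at hx
    omega

lemma last_image {n : ℕ} (hn : 4 ≤ n) (S : Finset ℕ) : S ∈ X n 2 ↔ ∃ x ∈ WN n n, fx x = S := by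
  unfold X
  rw [Finset.mem_filter, Finset.mem_powerset]
  symm
  constructor
  · rintro ⟨x, hx, rfl⟩
    obtain ⟨a, b, rfl, h1, h2, h3⟩ := last_lt hn hx
    change ({a, b} : Finset ℕ) ⊆ Finset.range n ∧ ({a, b} : Finset ℕ).card = 2 ∧ AltC n {a, b}
    refine ⟨?_, Finset.card_pair (by omega), (altC_pair (by omega) h2).2 ⟨h1, h3⟩⟩
    intro y hy
    simp only [Finset.mem_insert, Finset.mem_singleton] at hy
    rw [Finset.mem_range]
    omega
  · rintro ⟨h1, h2, h3⟩
    obtain ⟨a, b, hab, rfl⟩ := Finset.card_eq_two.1 h2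
    have ha : a < n := Finset.mem_range.1 (h1 (by simp))
    have hb : b < n := Finset.mem_range.1 (h1 (by simp))
    rcases Nat.lt_or_gt_of_ne hab with h | h
    · have h4 := (altC_pair h hb).1 h3
      refine ⟨Sum.inl (a, b), (inl_mem_WN hn (le_refl n) a b).2 (Or.inl ⟨h4.1, hb, h4.2⟩), rfl⟩
    · rw [Finset.pair_comm] at h3
      have h4 := (altC_pair h ha).1 h3
      refine ⟨Sum.inl (b, a), (inl_mem_WN hn (le_refl n) b a).2 (Or.inl ⟨h4.1, ha, h4.2⟩), ?_⟩
      exact Finset.pair_comm b a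

/-! ### the first stage -/

/-- relabelling of the cross-polytope -/
def gx (d : ℕ) : Fin d ⊕ Fin d → (ℕ × ℕ) ⊕ ℕ
  | Sum.inl i => Sum.inl (0, i.val + 2)
  | Sum.inr i => Sum.inr (i.val + 2)

lemma first_image {n : ℕ} (hn : 4 ≤ n) (x : (ℕ × ℕ) ⊕ ℕ) :
    x ∈ WN n 3 ↔ ∃ y ∈ (Finset.univ : Finset (Fin (n - 3) ⊕ Fin (n - 3))), gx (n - 3) y = x := by
  symm
  constructor
  · rintro ⟨y, -, rfl⟩
    rcases y with i | i
    · have := i.isLt
      change (Sum.inl (0, i.val + 2) : (ℕ × ℕ) ⊕ ℕ) ∈ WN n 3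
      rw [inl_mem_WN hn (by omega)]
      omega
    · have := i.isLt
      change (Sum.inr (i.val + 2) : (ℕ × ℕ) ⊕ ℕ) ∈ WN n 3
      rw [inr_mem_WN hn]
      omega
  · intro hx
    rcases x with ⟨a, b⟩ | j
    · rw [inl_mem_WN hn (by omega)] at hx
      have h1 : a = 0 ∧ 2 ≤ b ∧ b ≤ n - 2 := by omega
      refine ⟨Sum.inl ⟨b - 2, by omega⟩, Finset.mem_univ _, ?_⟩
      change (Sum.inl (0, b - 2 + 2) : (ℕ × ℕ) ⊕ ℕ) = _
      rw [h1.1, Nat.sub_add_cancel h1.2.1]
    · rw [inr_mem_WN hn] at hx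
      refine ⟨Sum.inr ⟨j - 2, by omega⟩, Finset.mem_univ _, ?_⟩
      change (Sum.inr (j - 2 + 2) : (ℕ × ℕ) ⊕ ℕ) = _
      rw [Nat.sub_add_cancel (by omega)]

theorem tBase (hM : TRemCover) (hR : TRelabel) (hC : TCross) : TBase := by
  intro n hn
  -- the last stage
  have e1 : Nonempty (Geo ad (WN n n) ≃ₜ Geo CS (X n 2)) := by
    apply relab hR _ _ ad CS (WN n n) (X n 2) fx (last_image hn)
    · intro x hx y hy hxy
      obtain ⟨a, b, rfl, h1, h2, h3⟩ := last_lt hn hx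
      obtain ⟨c, d, rfl, h4, h5, h6⟩ := last_lt hn hy
      obtain ⟨k1, k2⟩ := pair_inj (by omega : a < b) (by omega : c < d) hxy
      rw [k1, k2]
    · intro x hx y hy
      obtain ⟨a, b, rfl, h1, h2, h3⟩ := last_lt hn hx
      obtain ⟨c, d, rfl, h4, h5, h6⟩ := last_lt hn hy
      exact cs_pair (by omega) (by omega)
  -- the first stage
  have e2 : Nonempty (Geo (cpAdj (n - 3)) Finset.univ ≃ₜ Geo ad (WN n 3)) := by
    apply relab hR _ _ (cpAdj (n - 3)) ad Finset.univ (WN n 3) (gx (n - 3)) (first_image hn)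
    · intro x _ y _ hxy
      rcases x with i | i <;> rcases y with j | j
      · have h1 : ((0 : ℕ), i.val + 2) = (0, j.val + 2) := Sum.inl_injective hxy
        rw [Prod.mk.injEq] at h1
        have : i = j := Fin.ext (by omega)
        rw [this]
      · exact absurd hxy Sum.inl_ne_inr
      · exact absurd hxy Sum.inr_ne_inl
      · have h1 : i.val + 2 = j.val + 2 := Sum.inr_injective hxy
        have : i = j := Fin.ext (by omega)
        rw [this]
    · intro x _ y _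
      rcases x with i | i <;> rcases y with j | j
      · change ¬ cr (0, i.val + 2) (0, j.val + 2) ↔ True
        rw [iff_true]
        unfold cr
        simp only
        omega
      · change ¬ ((0 : ℕ) = 0 ∧ i.val + 2 = j.val + 2) ↔ i ≠ j
        rw [ne_eq, Fin.ext_iff]
        omega
      · change ¬ ((0 : ℕ) = 0 ∧ j.val + 2 = i.val + 2) ↔ i ≠ j
        rw [ne_eq, Fin.ext_iff]
        omega
      · exact Iff.rfl
  have e3 := chain hM hn (n - 3) (by omega)
  rw [show 3 + (n - 3) = n by omega] at e3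
  have e4 := hC (n - 3)
  exact ⟨(e1.some.symm.toHomotopyEquiv.trans e3.some).trans
    (e2.some.symm.toHomotopyEquiv.trans e4.some.toHomotopyEquiv)⟩

end Pool.Agent.W965.WS
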