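import Mathlib
import Pool.Agent.W297.WS.Defs

/-!
Cyclic intervals and alternation.
-/

set_option autoImplicit false
open Classical

namespace Pool.Agent.W965.WS

open Pool.Agent.W297.WS

lemma add_mod_ite {n i j : ℕ} (hi : i < n) (hj : j < n) :
    (i + j) % n = if i + j < n then i + j else i + j - n := by
  split_ifs with h
  · exact Nat.mod_eq_of_lt h
  · rw [Nat.mod_eq_sub_mod (by omega), Nat.mod_eq_of_lt (by omega)]

lemma mem_image_iff {n k i x : ℕ} (hk : k < n) (hi : i < n) :
    x ∈ (Finset.range k).image (fun j => (i + j) % n) ↔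
      x < n ∧ (if i ≤ x then x - i else x + n - i) < k := by
  rw [Finset.mem_image]
  constructor
  · rintro ⟨j, hj, hx⟩
    rw [Finset.mem_range] at hj
    rw [add_mod_ite hi (by omega)] at hx
    split_ifs at hx ⊢ <;> omega
  · rintro ⟨h1, h2⟩
    refine ⟨if i ≤ x then x - i else x + n - i, Finset.mem_range.2 h2, ?_⟩
    rw [add_mod_ite hi (by omega)]
    split_ifs at h2 ⊢ <;> omega

theorem tInterval : TInterval := by
  intro n k S hk hkn hS hcard
  have hSn : ∀ x ∈ S, x < n := fun x hx => Finset.mem_range.1 (hS hx)
  constructor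
  · intro hno
    by_contra hA
    apply hno
    have hne : S.Nonempty := by
      rw [← Finset.card_pos]; omega
    obtain ⟨a, haS, ha⟩ : ∃ a ∈ S, ∀ x ∈ S, a ≤ x := ⟨S.min' hne, S.min'_mem hne, fun x hx => S.min'_le x hx⟩
    obtain ⟨b, hbS, hb⟩ : ∃ b ∈ S, ∀ x ∈ S, x ≤ b := ⟨S.max' hne, S.max'_mem hne, fun x hx => S.le_max' x hx⟩
    have han := hSn a haS
    have hbn := hSn b hbS
    by_cases hB : ∃ c, a < c ∧ c < b ∧ c ∉ S
    · obtain ⟨c, hac, hcb, hcS⟩ := hB
      have h0 : 0 ∈ S := by
        by_contra h0
        have : 0 < a := by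
          rcases Nat.eq_zero_or_pos a with h | h
          · rw [h] at haS; exact absurd haS h0
          · exact h
        exact hA ⟨0, a, c, b, this, hac, hcb, hbn, Or.inr ⟨h0, haS, hcS, hbS⟩⟩
      have hl : n - 1 ∈ S := by
        by_contra hl
        have : b < n - 1 := by
          rcases Nat.lt_or_ge b (n - 1) with h | h
          · exact h
          · have : b = n - 1 := by omega
            rw [this] at hbS; exact absurd hbS hl
        exact hA ⟨a, c, b, n - 1, hac, hcb, this, by omega, Or.inl ⟨haS, hcS, hbS, hl⟩⟩
      set T := Finset.range n \ S with hT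
      have hTmem : ∀ x, x ∈ T ↔ x < n ∧ x ∉ S := by
        intro x; rw [hT, Finset.mem_sdiff, Finset.mem_range]
      have hTne : T.Nonempty := ⟨c, (hTmem c).2 ⟨by omega, hcS⟩⟩
      have hTc : T.card = n - k := by
        rw [hT, Finset.card_sdiff_of_subset hS, Finset.card_range, hcard]
      obtain ⟨p, hpT, hp⟩ : ∃ a ∈ T, ∀ x ∈ T, a ≤ x :=
        ⟨T.min' hTne, T.min'_mem hTne, fun x hx => T.min'_le x hx⟩
      obtain ⟨q, hqT, hq⟩ : ∃ b ∈ T, ∀ x ∈ T, x ≤ b :=
        ⟨T.max' hTne, T.max'_mem hTne, fun x hx => T.le_max' x hx⟩
      have hp1 := (hTmem p).1 hpT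
      have hq1 := (hTmem q).1 hqT
      have hpq : p ≤ q := hp q hqT
      have hp0 : 0 < p := by
        rcases Nat.eq_zero_or_pos p with h | h
        · rw [h] at hp1; exact absurd h0 hp1.2
        · exact h
      have hqn : q < n - 1 := by
        rcases Nat.lt_or_ge q (n - 1) with h | h
        · exact h
        · have : q = n - 1 := by omega
          rw [this] at hq1; exact absurd hl hq1.2
      have hI : T = Finset.Icc p q := by
        ext x
        rw [Finset.mem_Icc]
        constructor
        · intro hx; exact ⟨hp x hx, hq x hx⟩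
        · rintro ⟨h1, h2⟩
          rw [hTmem]
          refine ⟨by omega, fun hxS => ?_⟩
          have e1 : p < x := by
            rcases Nat.lt_or_ge p x with h | h
            · exact h
            · have : x = p := by omega
              rw [this] at hxS; exact absurd hxS hp1.2
          have e2 : x < q := by
            rcases Nat.lt_or_ge x q with h | h
            · exact h
            · have : x = q := by omega
              rw [this] at hxS; exact absurd hxS hq1.2
          exact hA ⟨0, p, x, q, hp0, e1, e2, hq1.1, Or.inl ⟨h0, hp1.2, hxS, hq1.2⟩⟩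
      have hcc : q + 1 - p = n - k := by
        rw [← hTc, hI, Nat.card_Icc]
      refine ⟨q + 1, by omega, ?_⟩
      ext x
      rw [mem_image_iff hkn (by omega)]
      have hx : x ∈ S ↔ x < n ∧ ¬ (p ≤ x ∧ x ≤ q) := by
        rw [← Finset.mem_Icc, ← hI, hTmem]
        constructor
        · intro h; exact ⟨hSn x h, fun h2 => h2.2 h⟩
        · rintro ⟨h1, h2⟩
          by_contra h3
          exact h2 ⟨h1, h3⟩
      rw [hx]
      split_ifs <;> omega
    · have hI : S = Finset.Icc a b := by
        ext x
        rw [Finset.mem_Icc]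
        constructor
        · intro hx; exact ⟨ha x hx, hb x hx⟩
        · rintro ⟨h1, h2⟩
          by_contra hxS
          apply hB
          refine ⟨x, ?_, ?_, hxS⟩
          · rcases Nat.lt_or_ge a x with h | h
            · exact h
            · have : x = a := by omega
              rw [this] at hxS; exact absurd haS hxS
          · rcases Nat.lt_or_ge x b with h | h
            · exact h
            · have : x = b := by omega
              rw [this] at hxS; exact absurd hbS hxS
      have hcc : b + 1 - a = k := by
        rw [← hcard, hI, Nat.card_Icc]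
      have hab := ha b hbS
      refine ⟨a, han, ?_⟩
      ext x
      rw [mem_image_iff hkn han, hI, Finset.mem_Icc]
      split_ifs <;> omega
  · rintro ⟨a, b, c, d, hab, hbc, hcd, hdn, h⟩ ⟨i, hi, hSi⟩
    have hm : ∀ x, x ∈ S ↔ x < n ∧ (if i ≤ x then x - i else x + n - i) < k := by
      intro x
      rw [hSi]
      exact mem_image_iff hkn hi
    rw [hm a, hm b, hm c, hm d] at h
    split_ifs at h <;> omega

end Pool.Agent.W965.WS
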